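import Pool.Agent.Q52.HE.Stm
import Pool.Agent.H341R2.WeilSharp

/-!
# Surfaces with 16 elliptic lines, number of elements 1 modulo 4
-/

set_option autoImplicit false

namespace Pool.Agent.Q275.HE

open Finset Polynomial Pool.Agent.Q52.HE

section
variable {K : Type} [Field K]

lemma DD0 (x y : Fin 5 → K) : DD x y 0 = (x 0 ^ 2 * y 1 ^ 2 - x 1 ^ 2 * y 0 ^ 2) *
    (x 0 ^ 2 * y 2 ^ 2 - x 2 ^ 2 * y 0 ^ 2) * (x 0 ^ 2 * y 3 ^ 2 - x 3 ^ 2 * y 0 ^ 2) *
    (x 0 ^ 2 * y 4 ^ 2 - x 4 ^ 2 * y 0 ^ 2) := by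
  have h : univ.erase (0 : Fin 5) = {1, 2, 3, 4} := by decide
  rw [DD, h, prod_insert (by decide), prod_insert (by decide), prod_insert (by decide),
    prod_singleton]
  ring

lemma DD1 (x y : Fin 5 → K) : DD x y 1 = (x 1 ^ 2 * y 0 ^ 2 - x 0 ^ 2 * y 1 ^ 2) *
    (x 1 ^ 2 * y 2 ^ 2 - x 2 ^ 2 * y 1 ^ 2) * (x 1 ^ 2 * y 3 ^ 2 - x 3 ^ 2 * y 1 ^ 2) *
    (x 1 ^ 2 * y 4 ^ 2 - x 4 ^ 2 * y 1 ^ 2) := by
  have h : univ.erase (1 : Fin 5) = {0, 2, 3, 4} := by decide
  rw [DD, h, prod_insert (by decide), prod_insert (by decide), prod_insert (by decide),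
    prod_singleton]
  ring

lemma DD2 (x y : Fin 5 → K) : DD x y 2 = (x 2 ^ 2 * y 0 ^ 2 - x 0 ^ 2 * y 2 ^ 2) *
    (x 2 ^ 2 * y 1 ^ 2 - x 1 ^ 2 * y 2 ^ 2) * (x 2 ^ 2 * y 3 ^ 2 - x 3 ^ 2 * y 2 ^ 2) *
    (x 2 ^ 2 * y 4 ^ 2 - x 4 ^ 2 * y 2 ^ 2) := by
  have h : univ.erase (2 : Fin 5) = {0, 1, 3, 4} := by decide
  rw [DD, h, prod_insert (by decide), prod_insert (by decide), prod_insert (by decide),
    prod_singleton]
  ring

lemma DD3 (x y : Fin 5 → K) : DD x y 3 = (x 3 ^ 2 * y 0 ^ 2 - x 0 ^ 2 * y 3 ^ 2) *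
    (x 3 ^ 2 * y 1 ^ 2 - x 1 ^ 2 * y 3 ^ 2) * (x 3 ^ 2 * y 2 ^ 2 - x 2 ^ 2 * y 3 ^ 2) *
    (x 3 ^ 2 * y 4 ^ 2 - x 4 ^ 2 * y 3 ^ 2) := by
  have h : univ.erase (3 : Fin 5) = {0, 1, 2, 4} := by decide
  rw [DD, h, prod_insert (by decide), prod_insert (by decide), prod_insert (by decide),
    prod_singleton]
  ring

lemma DD4 (x y : Fin 5 → K) : DD x y 4 = (x 4 ^ 2 * y 0 ^ 2 - x 0 ^ 2 * y 4 ^ 2) *
    (x 4 ^ 2 * y 1 ^ 2 - x 1 ^ 2 * y 4 ^ 2) * (x 4 ^ 2 * y 2 ^ 2 - x 2 ^ 2 * y 4 ^ 2) *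
    (x 4 ^ 2 * y 3 ^ 2 - x 3 ^ 2 * y 4 ^ 2) := by
  have h : univ.erase (4 : Fin 5) = {0, 1, 2, 3} := by decide
  rw [DD, h, prod_insert (by decide), prod_insert (by decide), prod_insert (by decide),
    prod_singleton]
  ring

/-- nonzero types mean that the points are different -/
lemma nd_of (x y : Fin 5 → K) (h : ∀ i, DD x y i ≠ 0) : ND x y := by
  intro i j hij he
  refine h i ?_
  rw [DD]
  refine prod_eq_zero (mem_erase.mpr ⟨hij.symm, mem_univ j⟩) ?_
  rw [he, sub_self]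

lemma ns_mul_sq {v r : K} (hv : ¬ IsSquare v) (hr : r ≠ 0) : ¬ IsSquare (r ^ 2 * v) := by
  rintro ⟨s, hs⟩
  refine hv ⟨s / r, ?_⟩
  field_simp
  linear_combination hs

/-- the family of examples -/
lemma ex_of (i c : K) (hi : i ^ 2 = -1) (hc : c ≠ 0)
    (hv : ¬ IsSquare (2 * (1 - c ^ 4))) :
    ∃ x y : Fin 5 → K, ND x y ∧ Nat.card {i // ¬ IsSquare (DD x y i)} = 4 := by
  have hi0 : i ≠ 0 := by
    rintro rfl
    norm_num at hi
  have hv0 : 2 * (1 - c ^ 4) ≠ 0 := by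
    intro h
    exact hv ⟨0, by rw [h, mul_zero]⟩
  obtain ⟨x, hx⟩ : ∃ x : Fin 5 → K, x = ![0, 1, i, c, i * c] := ⟨_, rfl⟩
  have x0 : x 0 = 0 := by rw [hx]; rfl
  have x1 : x 1 = 1 := by rw [hx]; rfl
  have x2 : x 2 = i := by rw [hx]; rfl
  have x3 : x 3 = c := by rw [hx]; rfl
  have x4 : x 4 = i * c := by rw [hx]; rfl
  have e1 : (i * c) ^ 2 = -c ^ 2 := by rw [mul_pow, hi]; ring
  have e2 : (i * c ^ 2) ^ 2 = -c ^ 4 := by rw [mul_pow, hi]; ring
  have d0 : DD x (fun _ => 1) 0 = (c ^ 2) ^ 2 := by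
    rw [DD0, x0, x1, x2, x3, x4, e1, hi]; ring
  have d1 : DD x (fun _ => 1) 1 = 1 ^ 2 * (2 * (1 - c ^ 4)) := by
    rw [DD1, x0, x1, x2, x3, x4, e1, hi]; ring
  have d2 : DD x (fun _ => 1) 2 = 1 ^ 2 * (2 * (1 - c ^ 4)) := by
    rw [DD2, x0, x1, x2, x3, x4, e1, hi]; ring
  have d3 : DD x (fun _ => 1) 3 = (i * c ^ 2) ^ 2 * (2 * (1 - c ^ 4)) := by
    rw [DD3, x0, x1, x2, x3, x4, e1, e2, hi]; ring
  have d4 : DD x (fun _ => 1) 4 = (i * c ^ 2) ^ 2 * (2 * (1 - c ^ 4)) := by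
    rw [DD4, x0, x1, x2, x3, x4, e1, e2, hi]; ring
  have hic : i * c ^ 2 ≠ 0 := mul_ne_zero hi0 (pow_ne_zero _ hc)
  refine ⟨x, fun _ => 1, nd_of _ _ ?_, ?_⟩
  · intro j
    match j with
    | 0 => rw [d0]; exact pow_ne_zero _ (pow_ne_zero _ hc)
    | 1 => rw [d1]; exact mul_ne_zero (pow_ne_zero _ one_ne_zero) hv0
    | 2 => rw [d2]; exact mul_ne_zero (pow_ne_zero _ one_ne_zero) hv0
    | 3 => rw [d3]; exact mul_ne_zero (pow_ne_zero _ hic) hv0
    | 4 => rw [d4]; exact mul_ne_zero (pow_ne_zero _ hic) hv0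
  · have h : ∀ j, ¬ IsSquare (DD x (fun _ => 1) j) ↔ j ≠ 0 := by
      intro j
      match j with
      | 0 =>
        rw [d0]
        exact ⟨fun h => absurd ⟨c ^ 2, sq _⟩ h, fun h => absurd rfl h⟩
      | 1 => rw [d1]; exact ⟨fun _ => by decide, fun _ => ns_mul_sq hv one_ne_zero⟩
      | 2 => rw [d2]; exact ⟨fun _ => by decide, fun _ => ns_mul_sq hv one_ne_zero⟩
      | 3 => rw [d3]; exact ⟨fun _ => by decide, fun _ => ns_mul_sq hv hic⟩
      | 4 => rw [d4]; exact ⟨fun _ => by decide, fun _ => ns_mul_sq hv hic⟩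
    have h3 : {j // ¬ IsSquare (DD x (fun _ => 1) j)} = {j : Fin 5 // j ≠ 0} := by
      simp only [h]
    rw [h3, Nat.card_eq_fintype_card]
    decide
end

section
variable {k : Type} [Field k] [Fintype k]

lemma cast_card (k : Type) [Field k] [Fintype k] : ((Fintype.card k : ℕ) : k) = 0 :=
  FiniteField.cast_card_eq_zero k

omit [Fintype k] in
lemma char_ne (h2 : (2 : k) ≠ 0) : ringChar k ≠ 2 := by
  intro h
  have := CharP.cast_eq_zero k (ringChar k)
  rw [h] at this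
  exact h2 (by exact_mod_cast this)

/-- 17 elements -/
lemma case17 (h2 : (2 : k) ≠ 0) (hq : Fintype.card k = 17) :
    (3 : k) ≠ 0 ∧ ¬ IsSquare (2 * (1 - (3 : k) ^ 4)) := by
  have h17 : (17 : k) = 0 := by
    have := cast_card k
    rw [hq] at this
    exact_mod_cast this
  have h3 : (3 : k) ≠ 0 := by
    intro h
    have : (1 : k) = 0 := by linear_combination 6 * h - h17
    exact one_ne_zero this
  refine ⟨h3, fun hs => ?_⟩
  have e : 2 * (1 - (3 : k) ^ 4) = 10 := by linear_combination (-10) * h17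
  rw [e] at hs
  have h10 : (10 : k) ≠ 0 := by
    intro h
    have : (1 : k) = 0 := by linear_combination (-5) * h + 3 * h17
    exact one_ne_zero this
  rw [FiniteField.isSquare_iff (char_ne h2) h10, hq] at hs
  norm_num at hs
  have : (2 : k) = 0 := by linear_combination (-1 : k) * hs + 5882353 * h17
  exact h2 this

lemma big (h2 : (2 : k) ≠ 0) (hq : 25 ≤ Fintype.card k) :
    ∃ c : k, c ≠ 0 ∧ ¬ IsSquare (2 * (1 - c ^ 4)) := by
  classical
  by_contra hcon
  push Not at hcon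
  obtain ⟨f, hf⟩ : ∃ f : k[X], f = C 2 * (1 - X ^ 4) := ⟨_, rfl⟩
  have hev : ∀ c, f.eval c = 2 * (1 - c ^ 4) := by
    intro c
    rw [hf]
    simp
  have hdeg : f.natDegree = 4 := by
    rw [hf]
    compute_degree!
  have hns : ∀ (c : k) (h : k[X]), f ≠ C c * h ^ 2 := by
    intro c h he
    have h1 : f.eval 1 = 0 := by rw [hev]; ring
    have h3 : f.derivative.eval 1 = -8 := by
      rw [hf]
      simp
      norm_num
    have hc0 : c ≠ 0 := by
      rintro rfl
      rw [C_0, zero_mul] at he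
      rw [he, natDegree_zero] at hdeg
      omega
    rw [he, eval_mul, eval_C, eval_pow] at h1
    have h4 : h.eval 1 = 0 := by
      rcases mul_eq_zero.mp h1 with h5 | h5
      · exact absurd h5 hc0
      · exact pow_eq_zero_iff (two_ne_zero) |>.mp h5
    rw [he] at h3
    have h5 : (C c * h ^ 2).derivative.eval 1 = 0 := by
      rw [derivative_mul, derivative_C, zero_mul, zero_add, derivative_pow, eval_mul, eval_mul,
        eval_mul, eval_pow, h4]
      norm_num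
    rw [h5] at h3
    have h6 : (2 : k) ^ 3 = 0 := by linear_combination h3
    exact h2 (pow_eq_zero_iff (by decide) |>.mp h6)
  have hw := Pool.Agent.H341R2.Sharp.weil_sharp (char_ne h2) f (by omega) hns
  obtain ⟨g, hg⟩ : ∃ g : k[X], g = X ^ 4 - C 1 := ⟨_, rfl⟩
  have hg0 : g ≠ 0 := by rw [hg]; exact X_pow_sub_C_ne_zero (by norm_num) _
  have hgd : g.natDegree = 4 := by rw [hg]; exact natDegree_X_pow_sub_C
  obtain ⟨S, hS⟩ : ∃ S : Finset k, S = g.roots.toFinset := ⟨_, rfl⟩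
  have hSc : S.card ≤ 4 := by
    rw [hS, ← hgd]
    exact (Multiset.toFinset_card_le _).trans (card_roots' g)
  have hSm : ∀ x : k, x ^ 4 = 1 → x ∈ S := by
    intro x hx
    rw [hS, Multiset.mem_toFinset, mem_roots hg0, IsRoot.def, hg]
    simp [hx]
  have hpt : ∀ x : k, (1 : ℤ) - 2 * (if x = 0 then 1 else 0) - (if x ∈ S then 1 else 0) ≤
      quadraticChar k (f.eval x) := by
    intro x
    have hge : (-1 : ℤ) ≤ quadraticChar k (f.eval x) := by
      by_cases h : f.eval x = 0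
      · rw [h, quadraticChar_zero]; norm_num
      · rcases quadraticChar_dichotomy h with h1 | h1
        · rw [h1]; norm_num
        · rw [h1]
    by_cases hx : x = 0
    · rw [if_pos hx]
      split_ifs <;> omega
    · rw [if_neg hx]
      by_cases h : f.eval x = 0
      · have hx1 : x ∈ S := by
          refine hSm x ?_
          rw [hev] at h
          rcases mul_eq_zero.mp h with h3 | h3
          · exact absurd h3 h2
          · exact (sub_eq_zero.mp h3).symm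
        rw [if_pos hx1, h, quadraticChar_zero]
        norm_num
      · have h3 : quadraticChar k (f.eval x) = 1 := by
          rw [quadraticChar_one_iff_isSquare h, hev]
          exact hcon x hx
        rw [h3]
        split_ifs <;> omega
  have hsum : (Fintype.card k : ℤ) - 6 ≤ ∑ x : k, quadraticChar k (f.eval x) := by
    refine le_trans ?_ (sum_le_sum fun x _ => hpt x)
    rw [sum_sub_distrib, sum_sub_distrib, ← mul_sum, sum_ite_eq' univ (0 : k), if_pos (mem_univ _),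
      sum_const, card_univ, nsmul_eq_mul, mul_one, mul_one, sum_ite_mem, univ_inter, sum_const,
      nsmul_eq_mul, mul_one]
    have : (S.card : ℤ) ≤ 4 := by exact_mod_cast hSc
    omega
  have hsumR : (Fintype.card k : ℝ) - 6 ≤ ∑ x : k, (quadraticChar k (f.eval x) : ℝ) := by
    have : (((Fintype.card k : ℤ) - 6 : ℤ) : ℝ) ≤
        ((∑ x : k, quadraticChar k (f.eval x) : ℤ) : ℝ) := by exact_mod_cast hsum
    push_cast at this
    exact this
  have h5 := hsumR.trans ((le_abs_self _).trans hw)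
  rw [hdeg] at h5
  have hq' : (25 : ℝ) ≤ Fintype.card k := by exact_mod_cast hq
  obtain ⟨t, ht⟩ : ∃ t, t = Real.sqrt (Fintype.card k) := ⟨_, rfl⟩
  have ht2 : t * t = Fintype.card k := by
    rw [ht]; exact Real.mul_self_sqrt (by linarith)
  have ht5 : 5 ≤ t := by
    rw [ht]
    exact Real.le_sqrt_of_sq_le (by linarith)
  rw [← ht, ← ht2] at h5
  push_cast at h5
  nlinarith

/-- surfaces with 16 elliptic lines, number of elements 1 modulo 4 -/
theorem e16a : S_e16a := by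
  intro k _ _ h2 hq hq4
  obtain ⟨i, hi⟩ : IsSquare (-1 : k) := by
    rw [FiniteField.isSquare_neg_one_iff]
    omega
  have hi' : i ^ 2 = -1 := by rw [hi, sq]
  rcases Nat.lt_or_ge (Fintype.card k) 25 with h | h
  · have h17 : Fintype.card k = 17 := by
      obtain ⟨p, n, hp, hn, he⟩ := (isPrimePow_nat_iff _).mp (Fintype.isPrimePow_card_of_field (α := k))
      have h21 : Fintype.card k ≠ 21 := by
        intro h21
        rw [h21] at he
        have hd : p ∣ 3 * 7 := by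
          rw [show 3 * 7 = p ^ n by rw [he]]
          exact dvd_pow_self p hn.ne'
        rcases hp.dvd_mul.mp hd with h3 | h3
        · rw [(Nat.prime_dvd_prime_iff_eq hp Nat.prime_three).mp h3] at he
          have : 7 ∣ 3 ^ n := by rw [he]; decide
          have := Nat.Prime.dvd_of_dvd_pow (by decide) this
          omega
        · rw [(Nat.prime_dvd_prime_iff_eq hp (by decide)).mp h3] at he
          have : 3 ∣ 7 ^ n := by rw [he]; decide
          have := Nat.Prime.dvd_of_dvd_pow Nat.prime_three this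
          omega
      omega
    obtain ⟨h3, h4⟩ := case17 h2 h17
    exact ex_of i 3 hi' h3 h4
  · obtain ⟨c, hc, hv⟩ := big h2 h
    exact ex_of i c hi' hc hv

end

end Pool.Agent.Q275.HE
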