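import Pool.Agent.Q275.HE.E16A

/-!
# Surfaces with 16 elliptic lines, number of elements 3 modulo 4
-/

set_option autoImplicit false

namespace Pool.Agent.Q275.HE

open Finset Polynomial Pool.Agent.Q52.HE

section
variable {K : Type} [Field K]

/-- the family of examples -/
lemma ex_of2 (hns : ¬ IsSquare (-1 : K)) (r m b1 b3 w : K)
    (h1 : b1 ^ 2 + r ^ 2 * b3 ^ 2 = 1 + r ^ 2) (h2 : -(1 + r ^ 2) = m ^ 2) (h3 : b3 ^ 2 ≠ 1)
    (h4 : b1 * b3 * (b1 + 1) * (b1 + b3) * (1 + b3) = w ^ 2) (h5 : w ≠ 0) :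
    ∃ x y : Fin 5 → K, ND x y ∧ (∀ i, IsSquare (DD x y i)) ∧ ¬ IsSquare (RR x y) := by
  have hr : r ≠ 0 := by
    rintro rfl
    exact hns ⟨m, by linear_combination h2⟩
  have hm : m ≠ 0 := by
    rintro rfl
    exact hns ⟨r, by linear_combination h2⟩
  have hb : b1 * b3 ≠ 0 := by
    intro h
    rw [h] at h4
    refine h5 (pow_eq_zero_iff (two_ne_zero) |>.mp ?_)
    rw [← h4]; ring
  have hb1 : b1 ≠ 0 := left_ne_zero_of_mul hb
  have hb3 : b3 ≠ 0 := right_ne_zero_of_mul hb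
  have h6 : 1 - b3 ^ 2 ≠ 0 := fun h => h3 (sub_eq_zero.mp h).symm
  have e1 : b1 ^ 2 - 1 = r ^ 2 * (1 - b3 ^ 2) := by linear_combination h1
  have e2 : b1 ^ 2 - b3 ^ 2 = -m ^ 2 * (1 - b3 ^ 2) := by
    linear_combination h1 + (1 - b3 ^ 2) * (-1 : K) * h2
  obtain ⟨x, hx⟩ : ∃ x : Fin 5 → K, x = ![0, 1, b1, 1, b3] := ⟨_, rfl⟩
  obtain ⟨y, hy⟩ : ∃ y : Fin 5 → K, y = ![1, 0, 1, 1, 1] := ⟨_, rfl⟩
  have x0 : x 0 = 0 := by rw [hx]; rfl
  have x1 : x 1 = 1 := by rw [hx]; rfl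
  have x2 : x 2 = b1 := by rw [hx]; rfl
  have x3 : x 3 = 1 := by rw [hx]; rfl
  have x4 : x 4 = b3 := by rw [hx]; rfl
  have y0 : y 0 = 1 := by rw [hy]; rfl
  have y1 : y 1 = 0 := by rw [hy]; rfl
  have y2 : y 2 = 1 := by rw [hy]; rfl
  have y3 : y 3 = 1 := by rw [hy]; rfl
  have y4 : y 4 = 1 := by rw [hy]; rfl
  have d0 : DD x y 0 = (b1 * b3) ^ 2 := by
    rw [DD0, x0, x1, x2, x3, x4, y0, y1, y2, y3, y4]; ring
  have d1 : DD x y 1 = 1 ^ 2 := by
    rw [DD1, x0, x1, x2, x3, x4, y0, y1, y2, y3, y4]; ring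
  have d2 : DD x y 2 = (b1 * (r * (m * (1 - b3 ^ 2)))) ^ 2 := by
    rw [DD2, x0, x1, x2, x3, x4, y0, y1, y2, y3, y4]
    have : (b1 ^ 2 * 1 ^ 2 - 0 ^ 2 * 1 ^ 2) * (b1 ^ 2 * 0 ^ 2 - 1 ^ 2 * 1 ^ 2) *
        (b1 ^ 2 * 1 ^ 2 - 1 ^ 2 * 1 ^ 2) * (b1 ^ 2 * 1 ^ 2 - b3 ^ 2 * 1 ^ 2) =
        -b1 ^ 2 * (b1 ^ 2 - 1) * (b1 ^ 2 - b3 ^ 2) := by ring
    rw [this, e1, e2]; ring
  have d3 : DD x y 3 = (r * (1 - b3 ^ 2)) ^ 2 := by
    rw [DD3, x0, x1, x2, x3, x4, y0, y1, y2, y3, y4]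
    have : (1 ^ 2 * 1 ^ 2 - 0 ^ 2 * 1 ^ 2) * (1 ^ 2 * 0 ^ 2 - 1 ^ 2 * 1 ^ 2) *
        (1 ^ 2 * 1 ^ 2 - b1 ^ 2 * 1 ^ 2) * (1 ^ 2 * 1 ^ 2 - b3 ^ 2 * 1 ^ 2) =
        (b1 ^ 2 - 1) * (1 - b3 ^ 2) := by ring
    rw [this, e1]; ring
  have d4 : DD x y 4 = (b3 * (m * (1 - b3 ^ 2))) ^ 2 := by
    rw [DD4, x0, x1, x2, x3, x4, y0, y1, y2, y3, y4]
    have : (b3 ^ 2 * 1 ^ 2 - 0 ^ 2 * 1 ^ 2) * (b3 ^ 2 * 0 ^ 2 - 1 ^ 2 * 1 ^ 2) *
        (b3 ^ 2 * 1 ^ 2 - b1 ^ 2 * 1 ^ 2) * (b3 ^ 2 * 1 ^ 2 - 1 ^ 2 * 1 ^ 2) =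
        -b3 ^ 2 * (b1 ^ 2 - b3 ^ 2) * (1 - b3 ^ 2) := by ring
    rw [this, e2]; ring
  refine ⟨x, y, nd_of _ _ ?_, ?_, ?_⟩
  · intro j
    match j with
    | 0 => rw [d0]; exact pow_ne_zero _ hb
    | 1 => rw [d1]; exact pow_ne_zero _ one_ne_zero
    | 2 => rw [d2]; exact pow_ne_zero _ (mul_ne_zero hb1 (mul_ne_zero hr (mul_ne_zero hm h6)))
    | 3 => rw [d3]; exact pow_ne_zero _ (mul_ne_zero hr h6)
    | 4 => rw [d4]; exact pow_ne_zero _ (mul_ne_zero hb3 (mul_ne_zero hm h6))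
  · intro j
    match j with
    | 0 => rw [d0]; exact ⟨_, sq _⟩
    | 1 => rw [d1]; exact ⟨_, sq _⟩
    | 2 => rw [d2]; exact ⟨_, sq _⟩
    | 3 => rw [d3]; exact ⟨_, sq _⟩
    | 4 => rw [d4]; exact ⟨_, sq _⟩
  · have h7 : RR x y = w ^ 2 * (-1) := by
      rw [RR, x0, x1, x2, x3, x4, y0, y1, y2, y3, y4, ← h4]; ring
    rw [h7]
    exact ns_mul_sq hns h5
end

section
variable {k : Type} [Field k] [Fintype k]

lemma ns_neg_one (h4 : Fintype.card k % 4 = 3) : ¬ IsSquare (-1 : k) := by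
  rw [FiniteField.isSquare_neg_one_iff]
  omega

lemma c19 (h4 : Fintype.card k % 4 = 3) (hq : Fintype.card k = 19) :
    ∃ x y : Fin 5 → k, ND x y ∧ (∀ i, IsSquare (DD x y i)) ∧ ¬ IsSquare (RR x y) := by
  have hp : (19 : k) = 0 := by
    have := cast_card k
    rw [hq] at this
    exact_mod_cast this
  refine ex_of2 (ns_neg_one h4) 3 3 5 7 1 (by linear_combination 24 * hp)
    (by linear_combination (-1 : k) * hp) (fun h => ?_) (by linear_combination 1061 * hp)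
    one_ne_zero
  have : (1 : k) = 0 := by linear_combination 2 * h - 5 * hp
  exact one_ne_zero this

lemma c23 (h4 : Fintype.card k % 4 = 3) (hq : Fintype.card k = 23) :
    ∃ x y : Fin 5 → k, ND x y ∧ (∀ i, IsSquare (DD x y i)) ∧ ¬ IsSquare (RR x y) := by
  have hp : (23 : k) = 0 := by
    have := cast_card k
    rw [hq] at this
    exact_mod_cast this
  refine ex_of2 (ns_neg_one h4) 2 8 9 2 11 (by linear_combination 4 * hp)
    (by linear_combination (-3 : k) * hp) (fun h => ?_) (by linear_combination 253 * hp) (fun h => ?_)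
  · have : (1 : k) = 0 := by linear_combination 8 * h - hp
    exact one_ne_zero this
  · have : (1 : k) = 0 := by linear_combination (-2 : k) * h + hp
    exact one_ne_zero this

lemma c31 (h4 : Fintype.card k % 4 = 3) (hq : Fintype.card k = 31) :
    ∃ x y : Fin 5 → k, ND x y ∧ (∀ i, IsSquare (DD x y i)) ∧ ¬ IsSquare (RR x y) := by
  have hp : (31 : k) = 0 := by
    have := cast_card k
    rw [hq] at this
    exact_mod_cast this
  refine ex_of2 (ns_neg_one h4) 5 6 9 2 9 (by linear_combination 5 * hp)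
    (by linear_combination (-2 : k) * hp) (fun h => ?_) (by linear_combination 189 * hp) (fun h => ?_)
  · have : (1 : k) = 0 := by linear_combination (-10 : k) * h + hp
    exact one_ne_zero this
  · have : (1 : k) = 0 := by linear_combination 7 * h - 2 * hp
    exact one_ne_zero this

lemma ex_t (hq : Fintype.card k = 27) : (3 : k) = 0 ∧ ∃ t : k, t ^ 3 = t + 1 := by
  have h27 : (3 : k) ^ 3 = 0 := by
    have := cast_card k
    rw [hq] at this
    push_cast at this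
    linear_combination this
  have h3 : (3 : k) = 0 := pow_eq_zero_iff (by decide) |>.mp h27
  refine ⟨h3, ?_⟩
  obtain ⟨g, hg⟩ : ∃ g : k[X], g = X ^ 8 + X ^ 7 + X ^ 6 + X ^ 5 + X ^ 4 + X ^ 3 + C 2 * X ^ 2 +
      C 2 * X := ⟨_, rfl⟩
  obtain ⟨L, hL⟩ : ∃ L : k[X], L = X ^ 3 - X := ⟨_, rfl⟩
  have hgm : g.Monic := by rw [hg]; monicity!
  have hgd : g.natDegree = 8 := by rw [hg]; compute_degree!
  have hLm : L.Monic := by rw [hL]; monicity!
  have hLd : L.natDegree = 3 := by rw [hL]; compute_degree!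
  have h0 : g.comp L ≠ 0 := (hgm.comp hLm (by omega)).ne_zero
  have hd : (g.comp L).natDegree < Fintype.card k := by
    rw [natDegree_comp, hgd, hLd, hq]; norm_num
  obtain ⟨x, hx⟩ : ∃ x : k, (g.comp L).eval x ≠ 0 := by
    by_contra hcon
    push Not at hcon
    exact h0 (Polynomial.eq_zero_of_natDegree_lt_card_of_eval_eq_zero _ Function.injective_id
      hcon hd)
  refine ⟨x, ?_⟩
  have hev : (g.comp L).eval x = (x ^ 3 - x) ^ 8 + (x ^ 3 - x) ^ 7 + (x ^ 3 - x) ^ 6 +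
      (x ^ 3 - x) ^ 5 + (x ^ 3 - x) ^ 4 + (x ^ 3 - x) ^ 3 + 2 * (x ^ 3 - x) ^ 2 +
      2 * (x ^ 3 - x) := by
    rw [eval_comp, hg, hL]
    simp
  have h27x : x ^ 27 = x := by
    have := FiniteField.pow_card x
    rwa [hq] at this
  have e1 : ∀ z : k, (z ^ 3 - z) ^ 3 = z ^ 9 - z ^ 3 := by
    intro z
    linear_combination (-z ^ 7 + z ^ 5) * h3
  have e2 : (x ^ 3 - x) ^ 9 = x ^ 27 - x ^ 9 := by
    have h5 : (x ^ 3 - x) ^ 9 = ((x ^ 3 - x) ^ 3) ^ 3 := by ring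
    have h6 : (x ^ 9 - x ^ 3) ^ 3 = ((x ^ 3) ^ 3 - x ^ 3) ^ 3 := by ring
    rw [h5, e1, h6, e1]
    ring
  have h7 : (x ^ 3 - x - 1) * (g.comp L).eval x = 0 := by
    rw [hev]
    have h8 : (x ^ 3 - x - 1) * ((x ^ 3 - x) ^ 8 + (x ^ 3 - x) ^ 7 + (x ^ 3 - x) ^ 6 +
      (x ^ 3 - x) ^ 5 + (x ^ 3 - x) ^ 4 + (x ^ 3 - x) ^ 3 + 2 * (x ^ 3 - x) ^ 2 +
      2 * (x ^ 3 - x)) = (x ^ 3 - x) ^ 9 + (x ^ 3 - x) ^ 3 - 2 * (x ^ 3 - x) := by ring
    rw [h8, e2, e1]
    linear_combination h27x - (x ^ 3 - x) * h3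
  rcases mul_eq_zero.mp h7 with h | h
  · linear_combination h
  · exact absurd h hx

lemma c27 (h4 : Fintype.card k % 4 = 3) (hq : Fintype.card k = 27) :
    ∃ x y : Fin 5 → k, ND x y ∧ (∀ i, IsSquare (DD x y i)) ∧ ¬ IsSquare (RR x y) := by
  obtain ⟨h3, t, ht⟩ := ex_t hq
  refine ex_of2 (ns_neg_one h4) 1 1 t (t + t ^ 2) (1 + t + t ^ 2)
    (by linear_combination (2 + t) * ht + (t + t ^ 2) * h3)
    (by linear_combination (-1 : k) * h3) (fun h => ?_)
    (by linear_combination (28 + 22 * t + 17 * t ^ 2 + 11 * t ^ 3 + 5 * t ^ 4 + t ^ 5) * ht +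
      (9 + 16 * t + 12 * t ^ 2) * h3) (fun h => ?_)
  · have h5 : 2 * (t ^ 2 - 1) = 0 := by
      linear_combination h - (2 + t) * ht - (t + 1) * h3
    have : (1 : k) = 0 := by
      linear_combination 2 * t * h5 - t * (t ^ 2 - 1) * h3 - ht
    exact one_ne_zero this
  · have h5 : (t - 1) ^ 2 = 0 := by linear_combination h - t * h3
    have h6 : t - 1 = 0 := pow_eq_zero_iff (two_ne_zero) |>.mp h5
    have : (1 : k) = 0 := by
      linear_combination (-1 : k) * ht + (t ^ 2 + t) * h6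
    exact one_ne_zero this

lemma ex_rm (h2 : (2 : k) ≠ 0) : ∃ r m : k, -(1 + r ^ 2) = m ^ 2 := by
  obtain ⟨a, b, h⟩ := FiniteField.exists_root_sum_quadratic (R := k) (f := X ^ 2)
    (g := X ^ 2 + C 1) (by compute_degree!) (by compute_degree!)
    (FiniteField.odd_card_of_char_ne_two (char_ne h2))
  refine ⟨a, b, ?_⟩
  simp at h
  linear_combination (-1 : k) * h

omit [Fintype k] in
/-- no element has square `-m²` -/
lemma no_sq (hns : ¬ IsSquare (-1 : k)) {m z : k} (hm : m ≠ 0) (h : z ^ 2 = -m ^ 2) : False := by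
  refine hns ⟨z / m, ?_⟩
  field_simp
  linear_combination (-1 : k) * h

omit [Fintype k] in
lemma sqfree (p1 p2 f : k[X]) (h1 : Irreducible p1) (h2 : Irreducible p2) (m1 : p1.Monic)
    (m2 : p2.Monic) (d1 : p1.natDegree = 2) (d2 : p2.natDegree = 2) (hne : p1 ≠ p2)
    (hd : f.natDegree = 6) (e1 : p1 ∣ f) (e2 : p2 ∣ f) (c : k) (h : k[X]) : f ≠ C c * h ^ 2 := by
  intro he
  have hc : c ≠ 0 := by
    rintro rfl
    rw [C_0, zero_mul] at he
    rw [he, natDegree_zero] at hd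
    omega
  have hh : h ≠ 0 := by
    rintro rfl
    rw [zero_pow two_ne_zero, mul_zero] at he
    rw [he, natDegree_zero] at hd
    omega
  have hh3 : h.natDegree = 3 := by
    rw [he, natDegree_C_mul hc, natDegree_pow] at hd
    omega
  have hdv : ∀ p : k[X], Irreducible p → p.natDegree = 2 → p ∣ f → p ∣ h := by
    intro p hp hpd hpf
    rw [he] at hpf
    rcases hp.prime.dvd_or_dvd hpf with h3 | h3
    · have := natDegree_le_of_dvd h3 (C_ne_zero.mpr hc)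
      rw [natDegree_C] at this
      omega
    · exact hp.prime.dvd_of_dvd_pow h3
  obtain ⟨g, hg⟩ := hdv p1 h1 d1 e1
  have hg0 : g ≠ 0 := by
    rintro rfl
    rw [mul_zero] at hg
    exact hh hg
  have h3 := hdv p2 h2 d2 e2
  rw [hg] at h3
  rcases h2.prime.dvd_or_dvd h3 with h4 | h4
  · exact hne (eq_of_monic_of_dvd_of_natDegree_le m2 m1 h4 (by omega))
  · have h5 := natDegree_le_of_dvd h4 hg0
    rw [hg, natDegree_mul h1.ne_zero hg0] at hh3
    omega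

lemma big2 (h2 : (2 : k) ≠ 0) (h4 : Fintype.card k % 4 = 3) (hq : 37 ≤ Fintype.card k) (r m : k)
    (hrm : -(1 + r ^ 2) = m ^ 2) :
    ∃ n v : k, n ≠ 0 ∧ r + n ≠ 0 ∧ 1 - r * n ≠ 0 ∧
      2 * r * (1 + n ^ 2) * (1 - 2 * r * n - n ^ 2) * (r + 2 * n - r * n ^ 2) = v ^ 2 ∧ v ≠ 0 := by
  classical
  have hns := ns_neg_one h4
  have hr : r ≠ 0 := by
    rintro rfl
    exact hns ⟨m, by linear_combination hrm⟩
  have hm : m ≠ 0 := by
    rintro rfl
    exact hns ⟨r, by linear_combination hrm⟩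
  have z1 : ∀ n : k, 1 + n ^ 2 ≠ 0 := by
    intro n h
    exact hns ⟨n, by linear_combination (-1 : k) * h⟩
  have z2 : ∀ n : k, 1 - 2 * r * n - n ^ 2 ≠ 0 := by
    intro n h
    refine no_sq hns hm (z := n + r) ?_
    linear_combination (-1 : k) * h - hrm
  have z3 : ∀ n : k, r + 2 * n - r * n ^ 2 ≠ 0 := by
    intro n h
    refine no_sq hns hm (z := r * n - 1) ?_
    linear_combination (-r) * h - hrm
  by_contra hcon
  push Not at hcon
  obtain ⟨p1, hp1⟩ : ∃ p1 : k[X], p1 = X ^ 2 + C 1 := ⟨_, rfl⟩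
  obtain ⟨p2, hp2⟩ : ∃ p2 : k[X], p2 = X ^ 2 + C (2 * r) * X - C 1 := ⟨_, rfl⟩
  obtain ⟨p3, hp3⟩ : ∃ p3 : k[X], p3 = C r * X ^ 2 - C 2 * X - C r := ⟨_, rfl⟩
  obtain ⟨f, hf⟩ : ∃ f : k[X], f = C (2 * r) * (p1 * p2 * p3) := ⟨_, rfl⟩
  have hev : ∀ n, f.eval n =
      2 * r * (1 + n ^ 2) * (1 - 2 * r * n - n ^ 2) * (r + 2 * n - r * n ^ 2) := by
    intro n
    rw [hf, hp1, hp2, hp3]
    simp
    ring
  have d1 : p1.natDegree = 2 := by rw [hp1]; compute_degree!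
  have d2 : p2.natDegree = 2 := by rw [hp2]; compute_degree!
  have d3 : p3.natDegree = 2 := by rw [hp3]; compute_degree!
  have m1 : p1.Monic := by rw [hp1]; monicity!
  have m2 : p2.Monic := by rw [hp2]; monicity!
  have n3 : p3 ≠ 0 := by
    rintro h
    rw [h, natDegree_zero] at d3
    omega
  have hdeg : f.natDegree = 6 := by
    rw [hf, natDegree_C_mul (mul_ne_zero h2 hr), natDegree_mul (mul_ne_zero m1.ne_zero m2.ne_zero)
      n3, natDegree_mul m1.ne_zero m2.ne_zero, d1, d2, d3]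
  have i1 : Irreducible p1 := by
    refine irreducible_of_degree_le_three_of_not_isRoot (by rw [d1]; decide) fun x hx => ?_
    rw [IsRoot.def, hp1] at hx
    simp at hx
    exact z1 x (by linear_combination hx)
  have i2 : Irreducible p2 := by
    refine irreducible_of_degree_le_three_of_not_isRoot (by rw [d2]; decide) fun x hx => ?_
    rw [IsRoot.def, hp2] at hx
    simp at hx
    exact z2 x (by linear_combination (-1 : k) * hx)
  have hne : p1 ≠ p2 := by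
    intro h
    have h5 := congrArg (fun p => p.eval 0) h
    simp only [hp1, hp2] at h5
    simp at h5
    exact h2 (by linear_combination h5)
  have hns2 : ∀ (c : k) (h : k[X]), f ≠ C c * h ^ 2 :=
    sqfree p1 p2 f i1 i2 m1 m2 d1 d2 hne hdeg
      ⟨C (2 * r) * p2 * p3, by rw [hf]; ring⟩ ⟨C (2 * r) * p1 * p3, by rw [hf]; ring⟩
  have hw := Pool.Agent.H341R2.Sharp.weil_sharp (char_ne h2) f (by omega) hns2
  have hf0 : ∀ n, f.eval n ≠ 0 := by
    intro n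
    rw [hev]
    exact mul_ne_zero (mul_ne_zero (mul_ne_zero (mul_ne_zero h2 hr) (z1 n)) (z2 n)) (z3 n)
  obtain ⟨S, hS⟩ : ∃ S : Finset k, S = {0, -r, r⁻¹} := ⟨_, rfl⟩
  have hSc : S.card ≤ 3 := by rw [hS]; exact card_le_three
  have hpt : ∀ x : k, quadraticChar k (f.eval x) ≤ -1 + 2 * (if x ∈ S then 1 else 0) := by
    intro x
    rcases quadraticChar_dichotomy (hf0 x) with h1 | h1
    · have hx : x ∈ S := by
        by_contra hx
        rw [hS] at hx
        simp only [mem_insert, mem_singleton, not_or] at hx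
        obtain ⟨v, hv⟩ := (quadraticChar_one_iff_isSquare (hf0 x)).mp h1
        rw [hev] at hv
        have hv0 := hcon x v hx.1 (fun h => hx.2.1 (by linear_combination h))
          (fun h => hx.2.2 (by field_simp; linear_combination (-1 : k) * h)) (by rw [hv]; ring)
        have h6 := hf0 x
        rw [hev, hv, hv0] at h6
        exact h6 (mul_zero 0)
      rw [h1, if_pos hx]
      norm_num
    · rw [h1]
      split_ifs <;> omega
  have hsum : ∑ x : k, quadraticChar k (f.eval x) ≤ -((Fintype.card k : ℤ) - 6) := by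
    refine le_trans (sum_le_sum fun x _ => hpt x) ?_
    rw [sum_add_distrib, ← mul_sum, sum_const, card_univ, nsmul_eq_mul, sum_ite_mem, univ_inter,
      sum_const, nsmul_eq_mul, mul_one]
    have : (S.card : ℤ) ≤ 3 := by exact_mod_cast hSc
    omega
  have hsumR : (Fintype.card k : ℝ) - 6 ≤ -∑ x : k, (quadraticChar k (f.eval x) : ℝ) := by
    have : ((∑ x : k, quadraticChar k (f.eval x) : ℤ) : ℝ) ≤
        ((-((Fintype.card k : ℤ) - 6) : ℤ) : ℝ) := by exact_mod_cast hsum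
    push_cast at this
    linarith
  have h5 := hsumR.trans ((neg_le_abs _).trans hw)
  rw [hdeg] at h5
  have hq' : (37 : ℝ) ≤ Fintype.card k := by exact_mod_cast hq
  obtain ⟨t, ht⟩ : ∃ t, t = Real.sqrt (Fintype.card k) := ⟨_, rfl⟩
  have ht2 : t * t = Fintype.card k := by
    rw [ht]; exact Real.mul_self_sqrt (by linarith)
  have ht5 : 6 < t := by
    rw [ht]
    exact Real.lt_sqrt_of_sq_lt (by linarith)
  rw [← ht, ← ht2] at h5
  push_cast at h5
  nlinarith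

lemma cbig (h2 : (2 : k) ≠ 0) (h4 : Fintype.card k % 4 = 3) (hq : 37 ≤ Fintype.card k) :
    ∃ x y : Fin 5 → k, ND x y ∧ (∀ i, IsSquare (DD x y i)) ∧ ¬ IsSquare (RR x y) := by
  have hns := ns_neg_one h4
  obtain ⟨r, m, hrm⟩ := ex_rm h2
  obtain ⟨n, v, hn, hrn, hr1, hv, hv0⟩ := big2 h2 h4 hq r m hrm
  have hr : r ≠ 0 := by
    rintro rfl
    exact hns ⟨m, by linear_combination hrm⟩
  have z1 : 1 + n ^ 2 ≠ 0 := by
    intro h
    exact hns ⟨n, by linear_combination (-1 : k) * h⟩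
  refine ex_of2 hns r m ((1 - n ^ 2 - 2 * r * n) / (1 + n ^ 2))
    ((r * (1 - n ^ 2) + 2 * n) / (r * (1 + n ^ 2)))
    (2 * v * (1 - r * n) * (r + n) / (r ^ 2 * (1 + n ^ 2) ^ 3)) ?_ hrm ?_ ?_ ?_
  · field_simp
    ring
  · intro h
    rw [div_pow, div_eq_one_iff_eq (pow_ne_zero _ (mul_ne_zero hr z1))] at h
    have h5 : 2 * (2 * (n * ((1 - r * n) * (r + n)))) = 0 := by linear_combination h
    exact mul_ne_zero h2 (mul_ne_zero h2 (mul_ne_zero hn (mul_ne_zero hr1 hrn))) h5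
  · have e : (1 - n ^ 2 - 2 * r * n) / (1 + n ^ 2) * ((r * (1 - n ^ 2) + 2 * n) / (r * (1 + n ^ 2))) *
      ((1 - n ^ 2 - 2 * r * n) / (1 + n ^ 2) + 1) *
      ((1 - n ^ 2 - 2 * r * n) / (1 + n ^ 2) + (r * (1 - n ^ 2) + 2 * n) / (r * (1 + n ^ 2))) *
      (1 + (r * (1 - n ^ 2) + 2 * n) / (r * (1 + n ^ 2))) =
      4 * (2 * r * (1 + n ^ 2) * (1 - 2 * r * n - n ^ 2) * (r + 2 * n - r * n ^ 2)) *
        ((1 - r * n) * (r + n)) ^ 2 / (r ^ 4 * (1 + n ^ 2) ^ 6) := by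
      field_simp
      ring
    rw [e, hv]
    field_simp
    ring
  · exact div_ne_zero (mul_ne_zero (mul_ne_zero (mul_ne_zero h2 hv0) hr1) hrn)
      (mul_ne_zero (pow_ne_zero _ hr) (pow_ne_zero _ z1))

/-- surfaces with 16 elliptic lines, number of elements 3 modulo 4 -/
theorem e16b : S_e16b := by
  intro k _ _ h2 hq hq4
  rcases Nat.lt_or_ge (Fintype.card k) 37 with h | h
  · obtain ⟨p, n, hp, hn, he⟩ := (isPrimePow_nat_iff _).mp (Fintype.isPrimePow_card_of_field (α := k))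
    have h35 : Fintype.card k ≠ 35 := by
      intro h35
      rw [h35] at he
      have hd : p ∣ 5 * 7 := by
        rw [show 5 * 7 = p ^ n by rw [he]]
        exact dvd_pow_self p hn.ne'
      rcases hp.dvd_mul.mp hd with h3 | h3
      · rw [(Nat.prime_dvd_prime_iff_eq hp (by decide)).mp h3] at he
        have : 7 ∣ 5 ^ n := by rw [he]; decide
        have := Nat.Prime.dvd_of_dvd_pow (by decide) this
        omega
      · rw [(Nat.prime_dvd_prime_iff_eq hp (by decide)).mp h3] at he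
        have : 5 ∣ 7 ^ n := by rw [he]; decide
        have := Nat.Prime.dvd_of_dvd_pow (by decide) this
        omega
    have hc : Fintype.card k = 19 ∨ Fintype.card k = 23 ∨ Fintype.card k = 27 ∨
        Fintype.card k = 31 := by omega
    rcases hc with h5 | h5 | h5 | h5
    · exact c19 hq4 h5
    · exact c23 hq4 h5
    · exact c27 hq4 h5
    · exact c31 hq4 h5
  · exact cbig h2 hq4 h

end

end Pool.Agent.Q275.HE
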